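import Mathlib

set_option linter.unusedSimpArgs false
set_option linter.unusedVariables false

/-!
# The Diophantine problem for plactic monoids over recursive total orders (Q2, negated form)

We show that there is a total order `L` which has a recursive presentation and such that, for
*every* recursive presentation of `L`, the Diophantine problem for the plactic monoid `P(L)` is
undecidable.

* Algebra: for `a < b` in `L`, the system `b a X = a b X`, `X a b = X b a`, `X a X = X X a`,
  `b X X = X b X` is solvable in `P(L)` iff some letter lies strictly between `a` and `b`.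
  (If there is none, `P(L)` maps to the bicyclic monoid by `a ↦ q`, `b ↦ p`, other letters `↦ 1`.)
* Order: `L` is the sum over `n` of `ω + (n + 1) + X_n`, where `X_n` is `ω*` if the domain of
  the `n`-th machine is infinite, and finite otherwise.  A recursive presentation of `L` with
  decidable adjacency would make `{n | W_n infinite}` an `∃∀`-set, which the recursion theorem
  refutes.
-/

open FreeMonoid

namespace Pool.Agent.Results.MP_a663df_lc.EveryPresentation



/-- The Knuth relations of the plactic monoid on a totally ordered alphabet `L`: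
`zxy = xzy` for `x ≤ y < z`, and `yxz = yzx` for `x < y ≤ z`. -/
inductive Knuth (L : Type) [LinearOrder L] : FreeMonoid L → FreeMonoid L → Prop
  | zxy (x y z : L) (h₁ : x ≤ y) (h₂ : y < z) : Knuth L (of z * of x * of y) (of x * of z * of y)
  | yxz (x y z : L) (h₁ : x < y) (h₂ : y ≤ z) : Knuth L (of y * of x * of z) (of y * of z * of x)

/-- The plactic monoid `P(L)`, i.e. the monoid presented by `⟨L | Knuth relations⟩`. -/
abbrev Plactic (L : Type) [LinearOrder L] : Type := PresentedMonoid (Knuth L)

/-- A finite system of equations over `P(L)`: a list of pairs of words over variables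
(natural numbers, `Sum.inl`) and constants (letters of `L`, `Sum.inr`). -/
abbrev System (L : Type) : Type := List (List (ℕ ⊕ L) × List (ℕ ⊕ L))

/-- The value in `P(L)` of a word over variables and constants, under an assignment `σ` of
elements of `P(L)` to the variables. -/
def value {L : Type} [LinearOrder L] (σ : ℕ → Plactic L) (w : List (ℕ ⊕ L)) : Plactic L :=
  (w.map (Sum.elim σ (PresentedMonoid.of (Knuth L)))).prod

/-- The system `S` has a solution in `P(L)`. -/
def Solvable {L : Type} [LinearOrder L] (S : System L) : Prop :=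
  ∃ σ : ℕ → Plactic L, ∀ e ∈ S, value σ e.1 = value σ e.2


/-- A recursive presentation of the total order `L`: a renaming of the elements of `L` by natural
numbers such that the set of names and the order relation on names are both decidable. -/
structure RecPresentation (L : Type) [LinearOrder L] where
  code : L → ℕ
  inj : Function.Injective code
  dom : ComputablePred fun n : ℕ => ∃ x, code x = n
  lt : ComputablePred fun p : ℕ × ℕ => ∃ x y, code x = p.1 ∧ code y = p.2 ∧ x < y

/-- Renaming of the constants in a word. -/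
def RecPresentation.word {L : Type} [LinearOrder L] (ρ : RecPresentation L)
    (w : List (ℕ ⊕ L)) : List (ℕ ⊕ ℕ) := w.map (Sum.map id ρ.code)

/-- Renaming of the constants in a system. -/
def RecPresentation.system {L : Type} [LinearOrder L] (ρ : RecPresentation L)
    (S : System L) : System ℕ := S.map fun e => (ρ.word e.1, ρ.word e.2)

/-- The Diophantine problem of `P(L)` (for the presentation `ρ`): the set of (names of) finite
systems of equations over `P(L)` that have a solution in `P(L)`. -/
def RecPresentation.Diophantine {L : Type} [LinearOrder L] (ρ : RecPresentation L)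
    (T : System ℕ) : Prop := ∃ S : System L, ρ.system S = T ∧ Solvable S

section Algebra

variable {L : Type} [LinearOrder L]

/-- The system saying that there is a letter strictly between `a` and `b`. -/
def sys {K : Type} (a b : K) : System K :=
  [([.inr b, .inr a, .inl 0], [.inr a, .inr b, .inl 0]),
   ([.inl 0, .inr a, .inr b], [.inl 0, .inr b, .inr a]),
   ([.inl 0, .inr a, .inl 0], [.inl 0, .inl 0, .inr a]),
   ([.inr b, .inl 0, .inl 0], [.inl 0, .inr b, .inl 0])]

lemma sys_of_between {a b c : L} (h₁ : a < c) (h₂ : c < b) : Solvable (sys a b) := by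
  refine ⟨fun _ => PresentedMonoid.of _ c, ?_⟩
  have key : ∀ {u v : FreeMonoid L}, Knuth L u v →
      PresentedMonoid.mk (Knuth L) u = PresentedMonoid.mk (Knuth L) v :=
    fun h => PresentedMonoid.mk_eq_mk_of_rel h
  have e : ∀ x, PresentedMonoid.of (Knuth L) x = PresentedMonoid.mk (Knuth L) (of x) :=
    fun _ => rfl
  intro e he
  simp only [sys, List.mem_cons, List.not_mem_nil, or_false] at he
  rcases he with rfl | rfl | rfl | rfl
  · have := key (Knuth.zxy a c b h₁.le h₂)
    simpa [value, mul_assoc, e] using this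
  · have := key (Knuth.yxz a c b h₁ h₂.le)
    simpa [value, mul_assoc, e] using this
  · have := key (Knuth.yxz a c c h₁ le_rfl)
    simpa [value, mul_assoc, e] using this
  · have := key (Knuth.zxy c c b le_rfl h₂)
    simpa [value, mul_assoc, e] using this

/-- letters to a monoid with two elements `p, q`. -/
def phi {M : Type} [Monoid M] (p q : M) (a b l : L) : M :=
  if l = a then q else if l = b then p else 1

lemma phi_knuth {M : Type} [Monoid M] (p q : M) (hpq : p * q = 1) {a b : L} (hab : a < b)
    (h : ∀ c, ¬ (a < c ∧ c < b)) (u v : FreeMonoid L)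
    (huv : Knuth L u v) : FreeMonoid.lift (phi p q a b) u = FreeMonoid.lift (phi p q a b) v := by
  have hpq' : ∀ m, p * (q * m) = m := fun m => by rw [← mul_assoc, hpq, one_mul]
  have hba : b ≠ a := hab.ne'
  have hab' : a ≠ b := hab.ne
  rcases huv with ⟨x, y, z, h₁, h₂⟩ | ⟨x, y, z, h₁, h₂⟩
  · simp only [map_mul, FreeMonoid.lift_eval_of, phi]
    rcases lt_trichotomy x a with hx | rfl | hx
    · have hxa : x ≠ a := hx.ne
      have hxb : x ≠ b := (hx.trans hab).ne
      simp [hxa, hxb]
    · -- x = a
      rcases h₁.eq_or_lt with rfl | h₁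
      · by_cases hz : z = b
        · subst hz; simp [hba, mul_assoc, hpq]
        · simp [h₂.ne', hz]
      · have hy : b ≤ y := not_lt.1 fun hyb => h y ⟨h₁, hyb⟩
        have hz : b < z := hy.trans_lt h₂
        simp [hz.ne', (hab.trans hz).ne']
    · have hy : a < y := hx.trans_le h₁
      have hz : a < z := hy.trans h₂
      have hx' : b ≤ x := not_lt.1 fun hyb => h x ⟨hx, hyb⟩
      have hy' : b ≤ y := hx'.trans h₁
      have hz' : b < z := hy'.trans_lt h₂
      simp [hx.ne', hy.ne', hz.ne', hz'.ne']
  · simp only [map_mul, FreeMonoid.lift_eval_of, phi]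
    rcases lt_trichotomy x a with hx | rfl | hx
    · have hxa : x ≠ a := hx.ne
      have hxb : x ≠ b := (hx.trans hab).ne
      simp [hxa, hxb]
    · -- x = a
      have hy : b ≤ y := not_lt.1 fun hyb => h y ⟨h₁, hyb⟩
      rcases h₂.eq_or_lt with rfl | h₂
      · rcases hy.eq_or_lt with rfl | hy
        · simp [hba, mul_assoc, hpq]
        · simp [hy.ne', (hab.trans hy).ne']
      · have hz : b < z := hy.trans_lt h₂
        rcases hy.eq_or_lt with rfl | hy
        · simp [hz.ne', (hab.trans hz).ne']
        · simp [hy.ne', (hab.trans hy).ne', hz.ne', (hab.trans hz).ne']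
    · have hy : a < y := hx.trans h₁
      have hz : a < z := hy.trans_le h₂
      have hx' : b ≤ x := not_lt.1 fun hyb => h x ⟨hx, hyb⟩
      have hy' : b < y := hx'.trans_lt h₁
      have hz' : b < z := hy'.trans_le h₂
      simp [hx.ne', hy.ne', hz.ne', hz'.ne', hy'.ne']

/-- the two generators of the bicyclic monoid, acting on ℕ -/
def bp : Function.End ℕ := Nat.pred
def bq : Function.End ℕ := Nat.succ
lemma bp_apply (n : ℕ) : bp n = n - 1 := rfl
lemma bq_apply (n : ℕ) : bq n = n + 1 := rfl
lemma end_mul (f g : Function.End ℕ) (n : ℕ) : (f * g) n = f (g n) := rfl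
lemma end_one (n : ℕ) : (1 : Function.End ℕ) n = n := rfl
lemma bp_mul_bq : bp * bq = 1 := by
  funext n; rw [end_mul, bp_apply, bq_apply, end_one]; omega

/-- normal form in the bicyclic monoid acting on ℕ -/
lemma normal_form {a b : L} (w : FreeMonoid L) :
    ∃ s t : ℕ, ∀ n, (FreeMonoid.lift (phi bp bq a b) w) n
      = (n - s) + t := by
  induction w using FreeMonoid.inductionOn' with
  | one => exact ⟨0, 0, fun n => by rw [map_one, end_one]; omega⟩
  | of_mul x w ih =>
    obtain ⟨s, t, h⟩ := ih
    rw [map_mul, FreeMonoid.lift_eval_of]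
    simp only [end_mul, h, phi]
    split_ifs with hxa hxb
    · exact ⟨s, t + 1, fun n => by rw [bq_apply]; omega⟩
    · rcases Nat.eq_zero_or_pos t with ht | ht
      · exact ⟨s + 1, 0, fun n => by rw [bp_apply]; omega⟩
      · exact ⟨s, t - 1, fun n => by rw [bp_apply]; omega⟩
    · exact ⟨s, t, fun n => by rw [end_one]⟩

lemma between_of_sys {a b : L} (hab : a < b) (hs : Solvable (sys a b)) : ∃ c, a < c ∧ c < b := by
  by_contra hcon
  push Not at hcon
  have h : ∀ c, ¬ (a < c ∧ c < b) := fun c hc => absurd (hcon c hc.1) (not_le.2 hc.2)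
  obtain ⟨σ, hσ⟩ := hs
  let Φ : Plactic L →* Function.End ℕ := PresentedMonoid.lift
    (phi bp bq a b)
    (fun u v huv => phi_knuth _ _ bp_mul_bq hab h u v huv)
  have hΦ : ∀ x, Φ (PresentedMonoid.of (Knuth L) x)
      = phi bp bq a b x := fun x => rfl
  have hval : ∀ w : List (ℕ ⊕ L), Φ (value σ w) = (w.map (Sum.elim (fun i => Φ (σ i))
      (phi bp bq a b))).prod := by
    intro w
    simp only [value, map_list_prod, List.map_map]
    congr 2
    funext x
    rcases x with x | x
    · rfl
    · exact hΦ x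
  obtain ⟨w, hw⟩ := PresentedMonoid.surjective_mk (σ 0)
  obtain ⟨s, t, hst⟩ := normal_form (a := a) (b := b) w
  have hX : ∀ n, (Φ (σ 0)) n = (n - s) + t := by
    intro n; rw [← hst n, ← hw]; rfl
  have ha : phi bp bq a b a = bq := by simp [phi]
  have hb : phi bp bq a b b = bp := by
    simp [phi, hab.ne']
  have e1 := congrArg Φ (hσ _ (List.mem_cons_self))
  have e2 := congrArg Φ (hσ _ (List.mem_cons_of_mem _ List.mem_cons_self))
  have e3 := congrArg Φ (hσ _ (List.mem_cons_of_mem _ (List.mem_cons_of_mem _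
    List.mem_cons_self)))
  have e4 := congrArg Φ (hσ _ (List.mem_cons_of_mem _ (List.mem_cons_of_mem _
    (List.mem_cons_of_mem _ List.mem_cons_self))))
  rw [hval, hval] at e1 e2 e3 e4
  simp only [List.map_cons, List.map_nil, List.prod_cons, List.prod_nil, Sum.elim_inl,
    Sum.elim_inr, ha, hb, mul_one] at e1 e2 e3 e4
  have f1 := congrFun e1 0
  have f2 := congrFun e2 0
  have f3 := congrFun e3 0
  have f4 := congrFun e4 0
  simp only [end_mul, hX, bp_apply, bq_apply] at f1 f2 f3 f4
  omega

end Algebra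



open Nat.Partrec (Code)
open Nat.Partrec.Code

/-- stage `j = ⟨x, s⟩` is fresh for machine `n`: it halts on `x` with bound `s`, not earlier. -/
def fresh (n j : ℕ) : Bool :=
  (evaln j.unpair.2 (Denumerable.ofNat Code n) j.unpair.1).isSome &&
  !(evaln (j.unpair.2 - 1) (Denumerable.ofNat Code n) j.unpair.1).isSome

lemma fresh_primrec : Primrec₂ fresh := by
  unfold fresh
  have h : ∀ {f : ℕ × ℕ → ℕ}, Primrec f → Primrec fun a : ℕ × ℕ =>
      (evaln (f a) (Denumerable.ofNat Code a.1) a.2.unpair.1).isSome := by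
    intro f hf
    exact Primrec.option_isSome.comp (primrec_evaln.comp
      (Primrec.pair (Primrec.pair hf ((Primrec.ofNat Code).comp Primrec.fst))
        (Primrec.fst.comp (Primrec.unpair.comp Primrec.snd))))
  exact Primrec.and.comp (h (Primrec.snd.comp (Primrec.unpair.comp Primrec.snd)))
    (Primrec.not.comp (h (Primrec.pred.comp (Primrec.snd.comp
      (Primrec.unpair.comp Primrec.snd)))))

lemma fresh_infinite_iff (n : ℕ) :
    {j | fresh n j = true}.Infinite ↔ {x | (eval (Denumerable.ofNat Code n) x).Dom}.Infinite := by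
  set c := Denumerable.ofNat Code n with hc
  have hsome : ∀ s x, (evaln s c x).isSome = true ↔ ∃ y, y ∈ evaln s c x := by
    intro s x; rw [Option.isSome_iff_exists]; rfl
  have himg : (fun j : ℕ => j.unpair.1) '' {j | fresh n j = true}
      = {x | (eval c x).Dom} := by
    ext x
    simp only [Set.mem_image, Set.mem_ofPred_eq]
    constructor
    · rintro ⟨j, hj, rfl⟩
      simp only [fresh, ← hc, Bool.and_eq_true] at hj
      obtain ⟨y, hy⟩ := (hsome _ _).1 hj.1
      exact Part.dom_iff_mem.2 ⟨y, evaln_sound hy⟩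
    · intro hx
      obtain ⟨y, hy⟩ := Part.dom_iff_mem.1 hx
      obtain ⟨k, hk⟩ := evaln_complete.1 hy
      have hex : ∃ s, (evaln s c x).isSome = true := ⟨k, (hsome _ _).2 ⟨y, hk⟩⟩
      classical
      refine ⟨Nat.pair x (Nat.find hex), ?_, by simp⟩
      have h1 := Nat.find_spec hex
      have h2 : ∀ s, s < Nat.find hex → ¬ (evaln s c x).isSome = true :=
        fun s hs => Nat.find_min hex hs
      have h0 : Nat.find hex ≠ 0 := by
        intro h0
        rw [h0] at h1
        simp [evaln] at h1
      simp only [fresh, ← hc, Nat.unpair_pair, Bool.and_eq_true]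
      refine ⟨h1, ?_⟩
      have := h2 (Nat.find hex - 1) (by omega)
      simpa using this
  have hinj : Set.InjOn (fun j : ℕ => j.unpair.1) {j | fresh n j = true} := by
    intro j hj j' hj' h
    simp only [Set.mem_ofPred_eq, fresh, ← hc, Bool.and_eq_true] at hj hj'
    have mono : ∀ s s' x, s ≤ s' → (evaln s c x).isSome = true → (evaln s' c x).isSome = true := by
      intro s s' x hss h
      obtain ⟨y, hy⟩ := (hsome _ _).1 h
      exact (hsome _ _).2 ⟨y, evaln_mono hss hy⟩
    have hs : j.unpair.2 = j'.unpair.2 := by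
      by_contra hne
      rcases Nat.lt_or_gt_of_ne hne with hlt | hlt
      · have h1 := mono _ (j'.unpair.2 - 1) _ (by omega) hj.1
        simp only at h
        rw [h] at h1
        simp [h1] at hj'
      · have h1 := mono _ (j.unpair.2 - 1) _ (by omega) hj'.1
        simp only at h
        rw [← h] at h1
        simp [h1] at hj
    rw [← Nat.pair_unpair j, ← Nat.pair_unpair j', hs]
    simp only at h
    rw [h]
  rw [← himg]
  exact (Set.infinite_image_iff hinj).symm

/-- the part of block `n` in which the element with index `i` lies. -/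
def part (n i : ℕ) : ℕ :=
  if i % 3 = 0 then 0
  else if i % 3 = 1 then (if i / 3 ≤ n then 1 else 0)
  else (if fresh n (i / 3) = true then 2 else 0)

/-- underlying set of the order. -/
structure Pt where
  n : ℕ
  i : ℕ

/-- sort key. -/
def Pt.key (p : Pt) : ℕ ×ₗ (ℕ ×ₗ ℤ) :=
  toLex (p.n, toLex (part p.n p.i, if part p.n p.i = 2 then -(p.i : ℤ) else (p.i : ℤ)))

lemma Pt.key_injective : Function.Injective Pt.key := by
  rintro ⟨n, i⟩ ⟨m, j⟩ h
  simp only [Pt.key, EmbeddingLike.apply_eq_iff_eq, Prod.mk.injEq] at h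
  obtain ⟨rfl, h2, h3⟩ := h
  rw [h2] at h3
  have : i = j := by
    split_ifs at h3 <;> omega
  rw [this]

instance : LinearOrder Pt := LinearOrder.lift' Pt.key Pt.key_injective

lemma lt_iff (p q : Pt) : p < q ↔ p.n < q.n ∨ (p.n = q.n ∧ (part p.n p.i < part q.n q.i ∨
    (part p.n p.i = part q.n q.i ∧ ((part p.n p.i = 2 ∧ q.i < p.i) ∨
      (part p.n p.i ≠ 2 ∧ p.i < q.i))))) := by
  have h : p < q ↔ p.key < q.key := Iff.rfl
  rw [h]
  simp only [Pt.key, Prod.Lex.toLex_lt_toLex]
  constructor
  · rintro (h | ⟨h, h' | ⟨h1, h2⟩⟩)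
    · exact Or.inl h
    · exact Or.inr ⟨h, Or.inl h'⟩
    · refine Or.inr ⟨h, Or.inr ⟨h1, ?_⟩⟩
      rw [h1] at h2 ⊢
      split_ifs at h2 with h3
      · exact Or.inl ⟨h3, by omega⟩
      · exact Or.inr ⟨h3, by omega⟩
  · rintro (h | ⟨h, h' | ⟨h1, h2⟩⟩)
    · exact Or.inl h
    · exact Or.inr ⟨h, Or.inl h'⟩
    · refine Or.inr ⟨h, Or.inr ⟨h1, ?_⟩⟩
      rw [h1] at h2 ⊢
      rcases h2 with ⟨h3, h4⟩ | ⟨h3, h4⟩
      · rw [if_pos h3, if_pos h3]; omega
      · rw [if_neg h3, if_neg h3]; omega

/-- a maximal finite block with exactly `n + 1` elements. -/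
def HasBlock (L : Type) [LinearOrder L] (n : ℕ) : Prop :=
  ∃ f : ℕ → L, (∀ y < n, f y ⋖ f (y + 1)) ∧ (∀ y, ¬ y ⋖ f 0) ∧ ∀ y, ¬ f n ⋖ y

lemma part_le (n i : ℕ) : part n i ≤ 2 := by unfold part; split_ifs <;> omega

lemma part_three (n i : ℕ) : part n (3 * i) = 0 := by unfold part; simp

lemma part_one_iff (n i : ℕ) : part n i = 1 ↔ ∃ j ≤ n, i = 3 * j + 1 := by
  unfold part
  constructor
  · intro h
    by_cases h1 : i % 3 = 0
    · simp [h1] at h
    by_cases h2 : i % 3 = 1
    · by_cases h3 : i / 3 ≤ n
      · exact ⟨i / 3, h3, by omega⟩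
      · simp [h2, h3] at h
    · rw [if_neg h1, if_neg h2] at h
      split_ifs at h
      omega
  · rintro ⟨j, hj, rfl⟩
    have h1 : (3 * j + 1) % 3 = 1 := by omega
    have h2 : (3 * j + 1) / 3 = j := by omega
    simp [h1, h2, hj]

lemma part_two_iff (n i : ℕ) : part n i = 2 ↔ ∃ j, fresh n j = true ∧ i = 3 * j + 2 := by
  unfold part
  constructor
  · intro h
    by_cases h1 : i % 3 = 0
    · simp [h1] at h
    by_cases h2 : i % 3 = 1
    · rw [if_neg h1, if_pos h2] at h
      split_ifs at h
      omega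
    · by_cases h3 : fresh n (i / 3) = true
      · exact ⟨i / 3, h3, by omega⟩
      · rw [if_neg h1, if_neg h2, if_neg h3] at h
        omega
  · rintro ⟨j, hj, rfl⟩
    have h1 : (3 * j + 2) % 3 = 2 := by omega
    have h2 : (3 * j + 2) / 3 = j := by omega
    simp [h1, h2, hj]

lemma step_covBy {n j : ℕ} (hj : j < n) : (⟨n, 3 * j + 1⟩ : Pt) ⋖ ⟨n, 3 * (j + 1) + 1⟩ := by
  have e1 : part n (3 * j + 1) = 1 := (part_one_iff _ _).2 ⟨j, hj.le, rfl⟩
  have e2 : part n (3 * (j + 1) + 1) = 1 := (part_one_iff _ _).2 ⟨j + 1, hj, rfl⟩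
  constructor
  · rw [lt_iff]; simp only [e1, e2, true_and, and_true, true_or, or_true, false_or, or_false,
      false_and, and_false]; omega
  · rintro ⟨m, i⟩ h1 h2
    rw [lt_iff] at h1 h2
    simp only [e1, e2, true_and, and_true, true_or, or_true, false_or, or_false,
      false_and, and_false] at h1 h2
    have hmn : m = n := by omega
    subst hmn
    have h3 : part m i = 1 := by omega
    obtain ⟨k, hk, rfl⟩ := (part_one_iff _ _).1 h3
    omega

lemma no_pred_first (n : ℕ) (y : Pt) : ¬ y ⋖ ⟨n, 1⟩ := by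
  rintro ⟨h1, h2⟩
  have e1 : part n 1 = 1 := (part_one_iff _ _).2 ⟨0, by omega, rfl⟩
  obtain ⟨m, i⟩ := y
  rw [lt_iff] at h1
  simp only [e1, true_and, and_true, true_or, or_true, false_or, or_false,
      false_and, and_false] at h1
  have e0 : part n 0 = 0 := part_three n 0
  by_cases hmn : m < n
  · refine h2 (c := ⟨n, 0⟩) ?_ ?_
    · rw [lt_iff]; exact Or.inl hmn
    · rw [lt_iff]; simp only [e1, e0, true_and, and_true, true_or, or_true, false_or, or_false,
      false_and, and_false]; omega
  · have hmn' : m = n := by omega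
    subst hmn'
    have h3 : part m i = 0 := by
      rcases h1 with h | ⟨-, h | ⟨h, h'⟩⟩
      · omega
      · omega
      · obtain ⟨j, hj, rfl⟩ := (part_one_iff _ _).1 h
        omega
    refine h2 (c := ⟨m, 3 * (i + 1)⟩) ?_ ?_
    · rw [lt_iff]; simp only [h3, part_three, true_and, and_true, true_or, or_true, false_or, or_false,
      false_and, and_false]; omega
    · rw [lt_iff]; simp only [e1, part_three, true_and, and_true, true_or, or_true, false_or, or_false,
      false_and, and_false]; omega

lemma no_succ_last {n : ℕ} (hn : {j | fresh n j = true}.Infinite) (y : Pt) :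
    ¬ (⟨n, 3 * n + 1⟩ : Pt) ⋖ y := by
  rintro ⟨h1, h2⟩
  have e1 : part n (3 * n + 1) = 1 := (part_one_iff _ _).2 ⟨n, le_rfl, rfl⟩
  obtain ⟨m, i⟩ := y
  rw [lt_iff] at h1
  simp only [e1, true_and, and_true, true_or, or_true, false_or, or_false,
      false_and, and_false] at h1
  obtain ⟨j, hj, hji⟩ := hn.exists_gt i
  have e2 : part n (3 * j + 2) = 2 := (part_two_iff _ _).2 ⟨j, hj, rfl⟩
  refine h2 (c := ⟨n, 3 * j + 2⟩) ?_ ?_
  · rw [lt_iff]; simp only [e1, e2, true_and, and_true, true_or, or_true, false_or, or_false,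
      false_and, and_false]; omega
  · rw [lt_iff]; simp only [e2, true_and, and_true, true_or, or_true, false_or, or_false,
      false_and, and_false]
    rcases h1 with h | ⟨h, h'⟩
    · exact Or.inl h
    · subst h
      refine Or.inr ⟨rfl, ?_⟩
      have h3 : part n i ≤ 2 := part_le _ _
      rcases h' with h' | ⟨h', h''⟩
      · omega
      · obtain ⟨k, hk, rfl⟩ := (part_one_iff n i).1 h'.symm
        omega

lemma exists_succ_of_finite (p : Pt) (hp : 1 ≤ part p.n p.i)
    (hlast : ∀ i, part p.n i = 1 → ¬ p < ⟨p.n, i⟩)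
    (hfin : {i | part p.n i = 2 ∧ p < ⟨p.n, i⟩}.Finite) : ∃ y, p ⋖ y := by
  obtain ⟨n, i⟩ := p
  simp only at hp hlast hfin
  rcases Set.eq_empty_or_nonempty {j | part n j = 2 ∧ (⟨n, i⟩ : Pt) < ⟨n, j⟩} with he | hne
  · have he' : ∀ j, part n j = 2 → ¬ (⟨n, i⟩ : Pt) < ⟨n, j⟩ := by
      intro j hj h
      have : j ∈ {j | part n j = 2 ∧ (⟨n, i⟩ : Pt) < ⟨n, j⟩} := ⟨hj, h⟩
      rw [he] at this
      exact this
    refine ⟨⟨n + 1, 0⟩, ?_, ?_⟩
    · rw [lt_iff]; simp
    · rintro ⟨m, j⟩ h1 h2
      have h2' := h2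
      have h1' := h1
      rw [lt_iff] at h1 h2
      have e0 : part (n + 1) 0 = 0 := part_three _ 0
      simp only [e0, true_and, and_true, true_or, or_true, false_or, or_false,
      false_and, and_false] at h1 h2
      have hm : m = n := by omega
      subst hm
      have hle := part_le m j
      rcases (by omega : part m j = 0 ∨ part m j = 1 ∨ part m j = 2) with h | h | h
      · omega
      · exact hlast j h h1'
      · exact he' j h h1'
  · obtain ⟨j, hj, hmax⟩ := hfin.exists_maximal hne
    refine ⟨⟨n, j⟩, hj.2, ?_⟩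
    rintro ⟨m, k⟩ h1 h2
    have h2' := h2
    have h1' := h1
    rw [lt_iff] at h1 h2
    simp only [hj.1, true_and, and_true, true_or, or_true, false_or, or_false,
      false_and, and_false] at h1 h2
    have hm : m = n := by omega
    subst hm
    have hle := part_le m k
    rcases (by omega : part m k = 0 ∨ part m k = 1 ∨ part m k = 2) with h | h | h
    · omega
    · exact hlast k h h1'
    · have := hmax (y := k) ⟨h, h1'⟩
      omega

lemma last_of_no_succ (p : Pt) (h : ∀ y, ¬ p ⋖ y) :
    p.i = 3 * p.n + 1 ∧ {j | fresh p.n j = true}.Infinite := by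
  obtain ⟨n, i⟩ := p
  simp only
  have hle := part_le n i
  rcases (by omega : part n i = 0 ∨ part n i = 1 ∨ part n i = 2) with h0 | h1 | h2
  · exfalso
    have hex : ∃ j, i < j ∧ part n j = 0 := ⟨3 * (i + 1), by omega, part_three _ _⟩
    classical
    have hs := Nat.find_spec hex
    refine h ⟨n, Nat.find hex⟩ ⟨?_, ?_⟩
    · rw [lt_iff]; simp only [h0, hs.2, true_and, and_true, true_or, or_true, false_or, or_false,
      false_and, and_false]; have := hs.1; omega
    · rintro ⟨m, k⟩ h3 h4
      rw [lt_iff] at h3 h4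
      simp only [h0, hs.2, true_and, and_true, true_or, or_true, false_or, or_false,
      false_and, and_false] at h3 h4
      have hm : m = n := by omega
      subst hm
      have hk : part m k = 0 := by omega
      have := Nat.find_min hex (m := k) (by omega)
      exact this ⟨by omega, hk⟩
  · obtain ⟨j, hj, rfl⟩ := (part_one_iff _ _).1 h1
    rcases hj.lt_or_eq with hj | rfl
    · exact absurd (step_covBy hj) (h _)
    · refine ⟨rfl, ?_⟩
      intro hfin
      obtain ⟨y, hy⟩ := exists_succ_of_finite ⟨j, 3 * j + 1⟩ (by simp only [h1]; omega)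
        (by
          intro i hi hlt
          obtain ⟨k, hk, rfl⟩ := (part_one_iff _ _).1 hi
          simp only at hk
          rw [lt_iff] at hlt
          simp only [h1, true_and, and_true, true_or, or_true, false_or, or_false,
      false_and, and_false] at hlt hi
          omega)
        (by
          refine (hfin.image (fun k => 3 * k + 2)).subset ?_
          rintro i ⟨hi, -⟩
          obtain ⟨k, hk, rfl⟩ := (part_two_iff _ _).1 hi
          exact ⟨k, hk, rfl⟩)
      exact h y hy
  · exfalso
    obtain ⟨y, hy⟩ := exists_succ_of_finite ⟨n, i⟩ (by simp only [h2]; omega)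
        (by
          intro k hk hlt
          rw [lt_iff] at hlt
          simp only [h2, hk, true_and, and_true, true_or, or_true, false_or, or_false,
      false_and, and_false] at hlt
          omega)
        (by
          refine (Set.finite_lt_nat i).subset ?_
          rintro k ⟨hk, hlt⟩
          simp only at hk
          rw [lt_iff] at hlt
          simp only [h2, hk, true_and, and_true, true_or, or_true, false_or, or_false,
      false_and, and_false] at hlt
          show k < i
          omega)
    exact h y hy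

lemma hasBlock_iff (n : ℕ) : HasBlock Pt n ↔ {j | fresh n j = true}.Infinite := by
  constructor
  · rintro ⟨f, hf, h0, hn⟩
    obtain ⟨h1, h2⟩ := last_of_no_succ (f n) hn
    set k := (f n).n with hk
    have hfn : f n = ⟨k, 3 * k + 1⟩ := by rw [← h1]
    have key : ∀ t, t ≤ n → t ≤ k → f (n - t) = ⟨k, 3 * (k - t) + 1⟩ := by
      intro t
      induction t with
      | zero => intro _ _; simpa using hfn
      | succ t ih =>
        intro h3 h4
        have h5 := ih (by omega) (by omega)
        have h6 := hf (n - (t + 1)) (by omega)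
        have h7 : n - (t + 1) + 1 = n - t := by omega
        rw [h7, h5] at h6
        have h8 : (⟨k, 3 * (k - (t + 1)) + 1⟩ : Pt) ⋖ ⟨k, 3 * (k - t) + 1⟩ := by
          have := step_covBy (n := k) (j := k - (t + 1)) (by omega)
          have h9 : k - (t + 1) + 1 = k - t := by omega
          rwa [h9] at this
        exact h6.unique_left h8
    rcases lt_trichotomy n k with hlt | heq | hlt
    · have h5 := key n le_rfl hlt.le
      rw [Nat.sub_self] at h5
      have h8 := step_covBy (n := k) (j := k - n - 1) (by omega)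
      have h9 : k - n - 1 + 1 = k - n := by omega
      rw [h9, ← h5] at h8
      exact absurd h8 (h0 _)
    · rw [heq]; exact h2
    · have h5 := key k hlt.le le_rfl
      simp only [Nat.sub_self, mul_zero, zero_add] at h5
      have h6 := hf (n - k - 1) (by omega)
      have h7 : n - k - 1 + 1 = n - k := by omega
      rw [h7, h5] at h6
      exact absurd h6 (no_pred_first _ _)
  · intro hinf
    refine ⟨fun y => ⟨n, 3 * y + 1⟩, fun y hy => step_covBy hy, ?_, no_succ_last hinf⟩
    exact no_pred_first n


section Comp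

lemma part_primrec : Primrec₂ part := by
  unfold part
  have hi : Primrec fun a : ℕ × ℕ => a.2 := Primrec.snd
  have hm : Primrec fun a : ℕ × ℕ => a.2 % 3 := Primrec.nat_mod.comp hi (Primrec.const 3)
  have hd : Primrec fun a : ℕ × ℕ => a.2 / 3 := Primrec.nat_div.comp hi (Primrec.const 3)
  have h0 : PrimrecPred fun a : ℕ × ℕ => a.2 % 3 = 0 := Primrec.eq.comp hm (Primrec.const 0)
  have h1 : PrimrecPred fun a : ℕ × ℕ => a.2 % 3 = 1 := Primrec.eq.comp hm (Primrec.const 1)
  have h2 : PrimrecPred fun a : ℕ × ℕ => a.2 / 3 ≤ a.1 := Primrec.nat_le.comp hd Primrec.fst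
  have h3 : PrimrecPred fun a : ℕ × ℕ => fresh a.1 (a.2 / 3) = true :=
    Primrec.eq.comp (fresh_primrec.comp Primrec.fst hd) (Primrec.const true)
  exact Primrec.ite h0 (Primrec.const 0) (Primrec.ite h1
    (Primrec.ite h2 (Primrec.const 1) (Primrec.const 0))
    (Primrec.ite h3 (Primrec.const 2) (Primrec.const 0)))

/-- the standard recursive presentation of the order `Pt`. -/
def stdPres : RecPresentation Pt where
  code p := Nat.pair p.n p.i
  inj := by
    rintro ⟨n, i⟩ ⟨m, j⟩ h
    have := Nat.pair_eq_pair.1 h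
    simp only at this
    rw [this.1, this.2]
  dom := by
    refine (PrimrecPred.computablePred (p := fun _ : ℕ => True) ⟨inferInstance, ?_⟩).of_eq ?_
    · exact Primrec.const _
    · intro n
      exact ⟨fun _ => ⟨⟨n.unpair.1, n.unpair.2⟩, Nat.pair_unpair n⟩, fun _ => trivial⟩
  lt := by
    have n1 : Primrec fun a : ℕ × ℕ => a.1.unpair.1 :=
      Primrec.fst.comp (Primrec.unpair.comp Primrec.fst)
    have i1 : Primrec fun a : ℕ × ℕ => a.1.unpair.2 :=
      Primrec.snd.comp (Primrec.unpair.comp Primrec.fst)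
    have n2 : Primrec fun a : ℕ × ℕ => a.2.unpair.1 :=
      Primrec.fst.comp (Primrec.unpair.comp Primrec.snd)
    have i2 : Primrec fun a : ℕ × ℕ => a.2.unpair.2 :=
      Primrec.snd.comp (Primrec.unpair.comp Primrec.snd)
    have p1 := part_primrec.comp n1 i1
    have p2 := part_primrec.comp n2 i2
    have h : PrimrecPred fun a : ℕ × ℕ =>
      a.1.unpair.1 < a.2.unpair.1 ∨ (a.1.unpair.1 = a.2.unpair.1 ∧
        (part a.1.unpair.1 a.1.unpair.2 < part a.2.unpair.1 a.2.unpair.2 ∨
        (part a.1.unpair.1 a.1.unpair.2 = part a.2.unpair.1 a.2.unpair.2 ∧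
          ((part a.1.unpair.1 a.1.unpair.2 = 2 ∧ a.2.unpair.2 < a.1.unpair.2) ∨
          (¬ (part a.1.unpair.1 a.1.unpair.2 = 2) ∧ a.1.unpair.2 < a.2.unpair.2))))) :=
      (Primrec.nat_lt.comp n1 n2).or ((Primrec.eq.comp n1 n2).and
        ((Primrec.nat_lt.comp p1 p2).or ((Primrec.eq.comp p1 p2).and
          (((Primrec.eq.comp p1 (Primrec.const 2)).and (Primrec.nat_lt.comp i2 i1)).or
          ((Primrec.eq.comp p1 (Primrec.const 2)).not.and (Primrec.nat_lt.comp i1 i2))))))
    refine h.computablePred.of_eq ?_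
    rintro ⟨a, b⟩
    constructor
    · intro h
      exact ⟨⟨a.unpair.1, a.unpair.2⟩, ⟨b.unpair.1, b.unpair.2⟩, Nat.pair_unpair a,
        Nat.pair_unpair b, (lt_iff _ _).2 h⟩
    · rintro ⟨⟨n, i⟩, ⟨m, j⟩, rfl, rfl, h⟩
      have h' := (lt_iff _ _).1 h
      simpa using h'

variable {L : Type} [LinearOrder L]

lemma RecPresentation.system_injective (ρ : RecPresentation L) :
    Function.Injective ρ.system := by
  have h1 : Function.Injective (Sum.map (id : ℕ → ℕ) ρ.code) :=
    Function.injective_id.sumMap ρ.inj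
  have h2 : Function.Injective ρ.word := List.map_injective_iff.2 h1
  refine List.map_injective_iff.2 ?_
  rintro ⟨u, v⟩ ⟨u', v'⟩ h
  simp only [Prod.mk.injEq] at h
  rw [h2 h.1, h2 h.2]

lemma RecPresentation.diophantine_sys (ρ : RecPresentation L) (x y : L) :
    ρ.Diophantine (sys (ρ.code x) (ρ.code y)) ↔ Solvable (sys x y) := by
  have h : ρ.system (sys x y) = sys (ρ.code x) (ρ.code y) := rfl
  constructor
  · rintro ⟨S, hS, hsol⟩
    rw [← h] at hS
    rwa [← ρ.system_injective hS]
  · intro hs
    exact ⟨_, h, hs⟩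

/-- adjacency of names -/
def adj (ρ : RecPresentation L) (a b : ℕ) : Prop := ∃ x y, ρ.code x = a ∧ ρ.code y = b ∧ x ⋖ y

lemma sys_primrec : Primrec fun p : ℕ × ℕ => sys p.1 p.2 := by
  have a : Primrec fun p : ℕ × ℕ => (Sum.inr p.1 : ℕ ⊕ ℕ) := Primrec.sumInr.comp Primrec.fst
  have b : Primrec fun p : ℕ × ℕ => (Sum.inr p.2 : ℕ ⊕ ℕ) := Primrec.sumInr.comp Primrec.snd
  have x : Primrec fun p : ℕ × ℕ => (Sum.inl 0 : ℕ ⊕ ℕ) := Primrec.const _
  have n : Primrec fun p : ℕ × ℕ => ([] : List (ℕ ⊕ ℕ)) := Primrec.const _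
  have cons3 : ∀ {f g h : ℕ × ℕ → ℕ ⊕ ℕ}, Primrec f → Primrec g → Primrec h →
      Primrec fun p => [f p, g p, h p] := fun hf hg hh =>
    Primrec.list_cons.comp hf (Primrec.list_cons.comp hg (Primrec.list_cons.comp hh n))
  unfold sys
  refine Primrec.list_cons.comp (Primrec.pair (cons3 b a x) (cons3 a b x)) ?_
  refine Primrec.list_cons.comp (Primrec.pair (cons3 x a b) (cons3 x b a)) ?_
  refine Primrec.list_cons.comp (Primrec.pair (cons3 x a x) (cons3 x x a)) ?_
  refine Primrec.list_cons.comp (Primrec.pair (cons3 b x x) (cons3 x b x)) ?_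
  exact Primrec.const _

lemma ComputablePred.comp' {α β : Type} [Primcodable α] [Primcodable β] {p : β → Prop}
    {f : α → β} (hp : ComputablePred p) (hf : Computable f) : ComputablePred fun a => p (f a) := by
  obtain ⟨g, hg, rfl⟩ := ComputablePred.computable_iff.1 hp
  exact ComputablePred.computable_iff.2 ⟨fun a => g (f a), hg.comp hf, rfl⟩

lemma ComputablePred.and' {α : Type} [Primcodable α] {p q : α → Prop}
    (hp : ComputablePred p) (hq : ComputablePred q) : ComputablePred fun a => p a ∧ q a := by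
  obtain ⟨f, hf, rfl⟩ := ComputablePred.computable_iff.1 hp
  obtain ⟨g, hg, rfl⟩ := ComputablePred.computable_iff.1 hq
  refine ComputablePred.computable_iff.2 ⟨fun a => f a && g a,
    Primrec.and.to_comp.comp hf hg, ?_⟩
  funext a
  simp

lemma adj_computable (ρ : RecPresentation L) (h : ComputablePred ρ.Diophantine) :
    ComputablePred fun p : ℕ × ℕ => adj ρ p.1 p.2 := by
  have h1 : ComputablePred fun p : ℕ × ℕ => ρ.Diophantine (sys p.1 p.2) :=
    ComputablePred.comp' h sys_primrec.to_comp
  refine (ComputablePred.and' ρ.lt h1.not).of_eq ?_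
  rintro ⟨a, b⟩
  constructor
  · rintro ⟨⟨x, y, hx, hy, hxy⟩, hD⟩
    simp only at hx hy hD
    subst hx hy
    rw [ρ.diophantine_sys] at hD
    refine ⟨x, y, rfl, rfl, hxy, fun c h1 h2 => hD (sys_of_between h1 h2)⟩
  · rintro ⟨x, y, hx, hy, hxy⟩
    refine ⟨⟨x, y, hx, hy, hxy.lt⟩, ?_⟩
    simp only at hx hy
    subst hx hy
    show ¬ ρ.Diophantine (sys (ρ.code x) (ρ.code y))
    rw [ρ.diophantine_sys]
    intro hs
    obtain ⟨c, h1, h2⟩ := between_of_sys hxy.lt hs
    exact hxy.2 h1 h2

/-- the matrix of the `∃∀` definition of `HasBlock`. -/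
def R (ρ : RecPresentation L) (n : ℕ) (l : List ℕ) (y : ℕ) : Prop :=
  (y < n → adj ρ (l.getD y 0) (l.getD (y + 1) 0)) ∧ ¬ adj ρ y (l.getD 0 0) ∧
    ¬ adj ρ (l.getD n 0) y ∧ ∃ x, ρ.code x = l.getD 0 0

lemma hasBlock_iff_R (ρ : RecPresentation L) (n : ℕ) :
    HasBlock L n ↔ ∃ l : List ℕ, ∀ y, R ρ n l y := by
  constructor
  · rintro ⟨f, hf, h0, hn⟩
    refine ⟨(List.range (n + 1)).map fun y => ρ.code (f y), fun y => ?_⟩
    have hget : ∀ y ≤ n, ((List.range (n + 1)).map fun y => ρ.code (f y)).getD y 0
        = ρ.code (f y) := by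
      intro y hy
      rw [List.getD_eq_getElem?_getD, List.getElem?_map, List.getElem?_range (by omega)]
      rfl
    refine ⟨fun hy => ?_, ?_, ?_, ?_⟩
    · rw [hget y hy.le, hget (y + 1) hy]
      exact ⟨_, _, rfl, rfl, hf y hy⟩
    · rw [hget 0 (Nat.zero_le _)]
      rintro ⟨x, z, hx, hz, hxz⟩
      rw [ρ.inj hz] at hxz
      exact h0 _ hxz
    · rw [hget n le_rfl]
      rintro ⟨x, z, hx, hz, hxz⟩
      rw [ρ.inj hx] at hxz
      exact hn _ hxz
    · rw [hget 0 (Nat.zero_le _)]
      exact ⟨_, rfl⟩
  · rintro ⟨l, hl⟩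
    obtain ⟨x0, hx0⟩ := (hl 0).2.2.2
    have hex : ∀ y ≤ n, ∃ x, ρ.code x = l.getD y 0 := by
      intro y hy
      rcases Nat.eq_zero_or_pos y with rfl | hpos
      · exact ⟨x0, hx0⟩
      · obtain ⟨u, v, hu, hv, huv⟩ := (hl (y - 1)).1 (by omega)
        have : y - 1 + 1 = y := by omega
        rw [this] at hv
        exact ⟨v, hv⟩
    classical
    let f : ℕ → L := fun y => if h : ∃ x, ρ.code x = l.getD y 0 then h.choose else x0
    have hf : ∀ y ≤ n, ρ.code (f y) = l.getD y 0 := by
      intro y hy
      have h := hex y hy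
      simp only [f, dif_pos h]
      exact h.choose_spec
    refine ⟨f, fun y hy => ?_, fun y hy => ?_, fun y hy => ?_⟩
    · obtain ⟨u, v, hu, hv, huv⟩ := (hl y).1 hy
      rw [← hf y hy.le] at hu
      rw [← hf (y + 1) hy] at hv
      rw [ρ.inj hu, ρ.inj hv] at huv
      exact huv
    · exact (hl (ρ.code y)).2.1 ⟨y, f 0, rfl, hf 0 (Nat.zero_le _), hy⟩
    · exact (hl (ρ.code y)).2.2.1 ⟨f n, y, hf n le_rfl, rfl, hy⟩

lemma ComputablePred.or' {α : Type} [Primcodable α] {p q : α → Prop}
    (hp : ComputablePred p) (hq : ComputablePred q) : ComputablePred fun a => p a ∨ q a := by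
  refine (ComputablePred.and' hp.not hq.not).not.of_eq fun a => ?_
  tauto

lemma R_computable (ρ : RecPresentation L) (h : ComputablePred ρ.Diophantine) :
    ComputablePred fun p : (ℕ × ℕ) × ℕ => R ρ p.1.1 (Denumerable.ofNat (List ℕ) p.1.2) p.2 := by
  have ha := adj_computable ρ h
  have n : Primrec fun p : (ℕ × ℕ) × ℕ => p.1.1 := Primrec.fst.comp Primrec.fst
  have l : Primrec fun p : (ℕ × ℕ) × ℕ => Denumerable.ofNat (List ℕ) p.1.2 :=
    (Primrec.ofNat (List ℕ)).comp (Primrec.snd.comp Primrec.fst)
  have y : Primrec fun p : (ℕ × ℕ) × ℕ => p.2 := Primrec.snd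
  have g : ∀ {f : (ℕ × ℕ) × ℕ → ℕ}, Primrec f →
      Primrec fun p : (ℕ × ℕ) × ℕ => (Denumerable.ofNat (List ℕ) p.1.2).getD (f p) 0 :=
    fun hf => (Primrec.list_getD 0).comp l hf
  have A : ∀ {f g : (ℕ × ℕ) × ℕ → ℕ}, Primrec f → Primrec g →
      ComputablePred fun p : (ℕ × ℕ) × ℕ => adj ρ (f p) (g p) := fun {f g} hf hg =>
    ComputablePred.comp' (f := fun p : (ℕ × ℕ) × ℕ => (f p, g p)) ha (Primrec.pair hf hg).to_comp
  have h1 : ComputablePred fun p : (ℕ × ℕ) × ℕ => ¬ p.2 < p.1.1 :=
    (Primrec.nat_lt.comp y n).not.computablePred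
  have h2 := ComputablePred.or' h1 (A (g y) (g (Primrec.succ.comp y)))
  have h3 := ComputablePred.and' (A y (g (Primrec.const 0))).not
    (ComputablePred.and' (A (g n) y).not (ComputablePred.comp' ρ.dom (g (Primrec.const 0)).to_comp))
  refine (ComputablePred.and' h2 h3).of_eq fun p => ?_
  simp only [R, imp_iff_not_or]

/-- There is a total order `L` that has a recursive presentation and such that, for every
recursive presentation of `L`, the Diophantine problem for `P(L)` is undecidable. -/
theorem result : ∃ (L : Type) (_ : LinearOrder L), Nonempty (RecPresentation L) ∧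
    ∀ ρ : RecPresentation L, ¬ ComputablePred ρ.Diophantine := by
  refine ⟨Pt, inferInstance, ⟨stdPres⟩, fun ρ h => ?_⟩
  obtain ⟨r, hr, hrR⟩ := ComputablePred.computable_iff.1 (R_computable ρ h)
  have hrR' : ∀ n x y, R ρ n (Denumerable.ofNat (List ℕ) x) y ↔ r ((n, x), y) = true :=
    fun n x y => iff_of_eq (congrFun hrR ((n, x), y))
  let F : Code → ℕ → ℕ →. Bool := fun c x' y => Part.some (! r ((Encodable.encode c, x'), y))
  let G : Code → ℕ →. ℕ := fun c x =>
    Nat.rec (Part.some 0) (fun x' IH => IH.bind fun _ => Nat.rfind (F c x')) x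
  have hG : Partrec₂ G := by
    have hF : Partrec fun p : ((Code × ℕ) × ℕ × ℕ) => Nat.rfind (F p.1.1 p.2.1) := by
      refine Partrec.rfind (p := fun p : ((Code × ℕ) × ℕ × ℕ) => F p.1.1 p.2.1) ?_
      have : Computable fun q : ((Code × ℕ) × ℕ × ℕ) × ℕ =>
          ! r ((Encodable.encode q.1.1.1, q.1.2.1), q.2) :=
        Primrec.not.to_comp.comp (hr.comp ((((Primrec.encode.comp
          (Primrec.fst.comp (Primrec.fst.comp Primrec.fst))).pair
          (Primrec.fst.comp (Primrec.snd.comp Primrec.fst))).pair Primrec.snd).to_comp))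
      exact this.partrec
    exact Partrec.nat_rec (f := fun a : Code × ℕ => a.2) (g := fun _ => Part.some 0)
      (h := fun a b => Nat.rfind (F a.1 b.1)) Computable.snd (Computable.const 0).partrec hF
  obtain ⟨c, hc⟩ := fixed_point₂ hG
  have hF : ∀ x', (Nat.rfind (F c x')).Dom ↔
      ∃ y, ¬ R ρ (Encodable.encode c) (Denumerable.ofNat (List ℕ) x') y := by
    intro x'
    rw [Nat.rfind_dom']
    constructor
    · rintro ⟨y, hy, -⟩
      refine ⟨y, ?_⟩
      rw [hrR']
      simpa [F] using hy
    · rintro ⟨y, hy⟩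
      rw [hrR'] at hy
      refine ⟨y, ?_, fun _ => trivial⟩
      simpa [F] using hy
  have hdom : ∀ x, (G c x).Dom ↔
      ∀ x' < x, ∃ y, ¬ R ρ (Encodable.encode c) (Denumerable.ofNat (List ℕ) x') y := by
    intro x
    induction x with
    | zero => simp [G]
    | succ x ih =>
      have : G c (x + 1) = (G c x).bind fun _ => Nat.rfind (F c x) := rfl
      rw [this, Part.bind_dom]
      constructor
      · rintro ⟨h1, h2⟩ x' hx'
        rcases Nat.lt_succ_iff_lt_or_eq.1 hx' with h3 | rfl
        · exact ih.1 h1 x' h3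
        · exact (hF _).1 h2
      · intro h1
        exact ⟨ih.2 fun x' hx' => h1 x' (by omega), (hF _).2 (h1 x (by omega))⟩
  have key : HasBlock Pt (Encodable.encode c) ↔ ∀ x, (G c x).Dom := by
    rw [hasBlock_iff, fresh_infinite_iff, Denumerable.ofNat_encode, hc]
    constructor
    · intro hinf x
      obtain ⟨z, hz, hxz⟩ := hinf.exists_gt x
      exact (hdom x).2 fun x' hx' => (hdom z).1 hz x' (hx'.trans hxz)
    · intro hall
      have : {x | (G c x).Dom} = Set.univ := by
        ext x; simp [hall x]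
      rw [this]
      exact Set.infinite_univ
  rw [hasBlock_iff_R ρ] at key
  have key2 : (∃ l : List ℕ, ∀ y, R ρ (Encodable.encode c) l y) ↔
      ∃ x, ∀ y, R ρ (Encodable.encode c) (Denumerable.ofNat (List ℕ) x) y := by
    constructor
    · rintro ⟨l, hl⟩
      exact ⟨Encodable.encode l, by simpa using hl⟩
    · rintro ⟨x, hx⟩
      exact ⟨_, hx⟩
  rw [key2] at key
  have key3 : (∀ x, (G c x).Dom) ↔
      ¬ ∃ x, ∀ y, R ρ (Encodable.encode c) (Denumerable.ofNat (List ℕ) x) y := by
    push Not
    constructor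
    · intro h x
      exact (hdom (x + 1)).1 (h (x + 1)) x (Nat.lt_succ_self x)
    · intro h x
      exact (hdom x).2 fun x' _ => h x'
  rw [key3] at key
  tauto

end Comp

end Pool.Agent.Results.MP_a663df_lc.EveryPresentation
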